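import Pool.Agent.H133.ZM.Stm3

/-!
# S_SWb (helper116)
-/

set_option autoImplicit false

namespace Pool.Agent.H116.ZM

open Finset
open Pool.Agent.H133.ZM

section
variable {V : Type} {G : SimpleGraph V}

theorem mono {M N : Finset (Sym2 V)} (h : IsM G M) (hN : N ⊆ M) : IsM G N :=
  ⟨fun e he => h.1 e (hN he), fun e he f hf => h.2 e (hN he) f (hN hf)⟩

theorem ins [DecidableEq V] {M : Finset (Sym2 V)} {e : Sym2 V} (h : IsM G M) (he : e ∈ G.edgeSet)
    (hd : ∀ f ∈ M, ∀ v ∈ e, v ∉ f) : IsM G (insert e M) := by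
  refine ⟨fun x hx => ?_, fun x hx y hy hxy v hv => ?_⟩
  · rcases mem_insert.1 hx with rfl | hx
    · exact he
    · exact h.1 x hx
  · rcases mem_insert.1 hx with h1 | h1
    · subst h1
      rcases mem_insert.1 hy with h2 | h2
      · exact absurd h2.symm hxy
      · exact hd y h2 v hv
    · rcases mem_insert.1 hy with h2 | h2
      · intro hv'
        rw [h2] at hv'
        exact hd x h1 v hv' hv
      · exact h.2 x h1 y h2 hxy v hv

/-- choose edges of value `0` and `2` -/
theorem pick [DecidableEq V] {m : ℕ} (c : Sym2 V → ZMod m) (Z T : Finset (Sym2 V))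
    (hd : Disjoint Z T) (hz : ∀ e ∈ Z, c e = 0) (ht : ∀ e ∈ T, c e = 2) (i j : ℕ)
    (hi : i ≤ Z.card) (hj : j ≤ T.card) :
    ∃ S ⊆ Z ∪ T, S.card = i + j ∧ ∑ e ∈ S, c e = ((2 * j : ℕ) : ZMod m) := by
  obtain ⟨Z1, hZ1, hZc⟩ := exists_subset_card_eq hi
  obtain ⟨T1, hT1, hTc⟩ := exists_subset_card_eq hj
  have hd1 : Disjoint Z1 T1 := hd.mono hZ1 hT1
  refine ⟨Z1 ∪ T1, union_subset_union hZ1 hT1, ?_, ?_⟩
  · rw [card_union_of_disjoint hd1, hZc, hTc]
  · rw [sum_union hd1, sum_eq_zero (fun e he => hz e (hZ1 he)),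
      sum_congr rfl (fun e he => ht e (hT1 he)), sum_const, hTc, zero_add, nsmul_eq_mul]
    push_cast
    ring

end

theorem core (k : ℕ) (hk : 1 ≤ k) (V : Type) [Fintype V] [DecidableEq V] (G : SimpleGraph V)
    (c : Sym2 V → ZMod (2 * k + 1)) (hmis : mis G ≤ 4 * k)
    (hNZ : ∀ M, IsM G M → M.card = 2 * k + 1 → ∑ e ∈ M, c e ≠ 0) (M M' : Finset (Sym2 V))
    (hM : IsM G M) (hM' : IsM G M') (hc : M.card = 3 * k + 1) (hd : (M \ M').card = 2)
    (hd' : (M' \ M).card = 2) (h1 : ∀ e ∈ M ∩ M', c e = 0 ∨ c e = 2)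
    (h2 : ((M ∩ M').filter (fun e => c e = 0)).card = 2 * k) (h3 : ∀ e ∈ M \ M', c e = 1)
    (h4 : ∀ e ∈ M' \ M, ∃ b : ℕ, 1 ≤ b ∧ b ≤ k ∧ c e = ((2 * b : ℕ) : ZMod (2 * k + 1))) :
    False := by
  classical
  have hne : NeZero (2 * k + 1) := ⟨by omega⟩
  set Z := (M ∩ M').filter (fun e => c e = 0) with hZ
  set T := (M ∩ M').filter (fun e => ¬ c e = 0) with hT
  have hZM : ∀ z ∈ Z, z ∈ M ∧ z ∈ M' := fun z hz => mem_inter.1 (mem_filter.1 hz).1
  have hTM : ∀ z ∈ T, z ∈ M ∧ z ∈ M' := fun z hz => mem_inter.1 (mem_filter.1 hz).1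
  have hz0 : ∀ e ∈ Z, c e = 0 := fun e he => (mem_filter.1 he).2
  have ht2 : ∀ e ∈ T, c e = 2 := fun e he =>
    (h1 e (mem_filter.1 he).1).resolve_left (mem_filter.1 he).2
  have hZT : Disjoint Z T := by
    rw [disjoint_left]
    intro e he he'
    exact (mem_filter.1 he').2 (mem_filter.1 he).2
  have hTc : T.card = k - 1 := by
    have e1 : Z.card + T.card = (M ∩ M').card := card_filter_add_card_filter_not _
    have e2 : (M \ M').card + (M ∩ M').card = M.card := card_sdiff_add_card_inter M M'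
    omega
  have hself : ((2 * k + 1 : ℕ) : ZMod (2 * k + 1)) = 0 := ZMod.natCast_self _
  have hself2 : (2 * (k : ZMod (2 * k + 1)) + 1) = 0 := by
    have := hself
    push_cast at this
    exact this
  -- vertices of the exchanged edges
  have hwnot : ∀ e ∈ M \ M', ∀ w ∈ e, ∀ z, z ∈ M → z ∈ M' → w ∉ z := by
    intro e he w hw z hz hz'
    have he' := mem_sdiff.1 he
    exact hM.2 e he'.1 z hz (fun h => he'.2 (h ▸ hz')) w hw
  -- the claim
  have claim : ∀ (w p q : V) (e : Sym2 V), e ∈ M \ M' → w ∈ e → s(p, q) ∈ Z → G.Adj w p →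
      c s(w, p) = 0 := by
    intro w p q e he hw hpq hadj
    have hwp : s(w, p) ∈ G.edgeSet := hadj
    have hpM := hZM _ hpq
    have hpin : p ∈ s(p, q) := Sym2.mem_mk_left p q
    have hZ'c : (Z.erase s(p, q)).card = 2 * k - 1 := by rw [card_erase_of_mem hpq, h2]
    have hdisj : Disjoint (Z.erase s(p, q)) T := hZT.mono_left (erase_subset _ _)
    have hpk : ∀ i j : ℕ, i ≤ 2 * k - 1 → j ≤ k - 1 → ∃ S ⊆ Z.erase s(p, q) ∪ T,
        S.card = i + j ∧ ∑ e ∈ S, c e = ((2 * j : ℕ) : ZMod (2 * k + 1)) := by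
      intro i j hi hj
      exact pick c _ T hdisj (fun e he => hz0 e (mem_of_mem_erase he)) ht2 i j
        (by rw [hZ'c]; exact hi) (by rw [hTc]; exact hj)
    have hSM : ∀ z ∈ Z.erase s(p, q) ∪ T, z ∈ M ∧ z ∈ M' ∧ z ≠ s(p, q) := by
      intro z hz
      rcases mem_union.1 hz with h | h
      · exact ⟨(hZM z (mem_of_mem_erase h)).1, (hZM z (mem_of_mem_erase h)).2, ne_of_mem_erase h⟩
      · refine ⟨(hTM z h).1, (hTM z h).2, fun h' => ?_⟩
        rw [h'] at h
        exact disjoint_left.1 hZT hpq h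
    have hfree : ∀ z ∈ Z.erase s(p, q) ∪ T, ∀ v ∈ s(w, p), v ∉ z := by
      intro z hz v hv
      obtain ⟨a1, a2, a3⟩ := hSM z hz
      rcases Sym2.mem_iff.1 hv with rfl | rfl
      · exact hwnot e he v hw z a1 a2
      · exact hM.2 _ hpM.1 z a1 (Ne.symm a3) v hpin
    have hnotin : ∀ S : Finset (Sym2 V), (∀ z ∈ S, ∀ v ∈ s(w, p), v ∉ z) → s(w, p) ∉ S := by
      intro S hS h
      exact hS _ h w (Sym2.mem_mk_left w p) (Sym2.mem_mk_left w p)
    by_contra hu
    set u := c s(w, p) with hu_def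
    have hval : ((u.val : ℕ) : ZMod (2 * k + 1)) = u := ZMod.natCast_zmod_val u
    have hlt : u.val < 2 * k + 1 := ZMod.val_lt u
    have hv0 : u.val ≠ 0 := fun h => hu ((ZMod.val_eq_zero u).1 h)
    by_cases hv1 : u.val = 1
    · -- u = 1
      obtain ⟨f1, f2, hf12, hfs⟩ := card_eq_two.1 hd'
      obtain ⟨f, hf, hwf⟩ : ∃ f ∈ M' \ M, w ∉ f := by
        have hf1 : f1 ∈ M' \ M := by rw [hfs]; simp
        have hf2 : f2 ∈ M' \ M := by rw [hfs]; simp
        by_cases h : w ∈ f1
        · exact ⟨f2, hf2, hM'.2 f1 (mem_sdiff.1 hf1).1 f2 (mem_sdiff.1 hf2).1 hf12 w h⟩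
        · exact ⟨f1, hf1, h⟩
      obtain ⟨b, hb1, hbk, hcb⟩ := h4 f hf
      obtain ⟨hfM', hfM⟩ := mem_sdiff.1 hf
      obtain ⟨S, hS, hSc, hSs⟩ := hpk (k - 1 + b) (k - b) (by omega) (by omega)
      have hfS : f ∉ S := fun h => hfM (hSM f (hS h)).1
      have hfp : ∀ v ∈ s(w, p), v ∉ f := by
        intro v hv
        rcases Sym2.mem_iff.1 hv with rfl | rfl
        · exact hwf
        · exact hM'.2 _ hpM.2 f hfM' (fun h => hfM (h ▸ hpM.1)) v hpin
      have hall : ∀ z ∈ insert f S, ∀ v ∈ s(w, p), v ∉ z := by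
        intro z hz v hv
        rcases mem_insert.1 hz with rfl | hz
        · exact hfp v hv
        · exact hfree z (hS hz) v hv
      have hIM : IsM G (insert s(w, p) (insert f S)) := by
        refine ins (mono hM' ?_) hwp hall
        intro z hz
        rcases mem_insert.1 hz with rfl | hz
        · exact hfM'
        · exact (hSM z (hS hz)).2.1
      have hw1 := hnotin _ hall
      refine hNZ _ hIM ?_ ?_
      · rw [card_insert_of_notMem hw1, card_insert_of_notMem hfS, hSc]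
        omega
      · rw [sum_insert hw1, sum_insert hfS, hSs, hcb, ← hu_def, ← hval, hv1]
        have e1 : ((1 : ℕ) : ZMod (2 * k + 1)) + (((2 * b : ℕ) : ZMod (2 * k + 1)) +
            ((2 * (k - b) : ℕ) : ZMod (2 * k + 1))) = ((2 * k + 1 : ℕ) : ZMod (2 * k + 1)) := by
          rw [← Nat.cast_add, ← Nat.cast_add]
          congr 1
          omega
        rw [e1, hself]
    · -- u ≥ 2
      obtain ⟨r, hr⟩ : ∃ r : ℕ, u.val + r = 2 * k + 1 := ⟨2 * k + 1 - u.val, by omega⟩
      rcases Nat.even_or_odd' r with ⟨j, hj | hj⟩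
      · obtain ⟨S, hS, hSc, hSs⟩ := hpk (2 * k - j) j (by omega) (by omega)
        have hall : ∀ z ∈ S, ∀ v ∈ s(w, p), v ∉ z := fun z hz => hfree z (hS hz)
        have hIM : IsM G (insert s(w, p) S) :=
          ins (mono hM (fun z hz => (hSM z (hS hz)).1)) hwp hall
        have hw1 := hnotin _ hall
        refine hNZ _ hIM ?_ ?_
        · rw [card_insert_of_notMem hw1, hSc]
          omega
        · rw [sum_insert hw1, hSs, ← hu_def, ← hval, ← Nat.cast_add]
          have e1 : u.val + 2 * j = 2 * k + 1 := by omega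
          rw [e1, hself]
      · obtain ⟨S, hS, hSc, hSs⟩ := hpk (2 * k - 1 - j) j (by omega) (by omega)
        obtain ⟨e1, e2, he12, hes⟩ := card_eq_two.1 hd
        obtain ⟨e', he', hwe'⟩ : ∃ e' ∈ M \ M', w ∉ e' := by
          have hf1 : e1 ∈ M \ M' := by rw [hes]; simp
          have hf2 : e2 ∈ M \ M' := by rw [hes]; simp
          by_cases h : w ∈ e1
          · exact ⟨e2, hf2, hM.2 e1 (mem_sdiff.1 hf1).1 e2 (mem_sdiff.1 hf2).1 he12 w h⟩
          · exact ⟨e1, hf1, h⟩
        obtain ⟨heM, heM'⟩ := mem_sdiff.1 he'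
        have heS : e' ∉ S := fun h => heM' (hSM e' (hS h)).2.1
        have hep : ∀ v ∈ s(w, p), v ∉ e' := by
          intro v hv
          rcases Sym2.mem_iff.1 hv with rfl | rfl
          · exact hwe'
          · exact hM.2 _ hpM.1 e' heM (fun h => heM' (h ▸ hpM.2)) v hpin
        have hall : ∀ z ∈ insert e' S, ∀ v ∈ s(w, p), v ∉ z := by
          intro z hz v hv
          rcases mem_insert.1 hz with rfl | hz
          · exact hep v hv
          · exact hfree z (hS hz) v hv
        have hIM : IsM G (insert s(w, p) (insert e' S)) := by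
          refine ins (mono hM ?_) hwp hall
          intro z hz
          rcases mem_insert.1 hz with rfl | hz
          · exact heM
          · exact (hSM z (hS hz)).1
        have hw1 := hnotin _ hall
        refine hNZ _ hIM ?_ ?_
        · rw [card_insert_of_notMem hw1, card_insert_of_notMem heS, hSc]
          omega
        · rw [sum_insert hw1, sum_insert heS, hSs, h3 e' he', ← hu_def, ← hval]
          have e3 : ((u.val : ℕ) : ZMod (2 * k + 1)) + (1 + ((2 * j : ℕ) : ZMod (2 * k + 1))) =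
              ((2 * k + 1 : ℕ) : ZMod (2 * k + 1)) := by
            rw [← Nat.cast_one (R := ZMod (2 * k + 1)), ← Nat.cast_add, ← Nat.cast_add]
            congr 1
            omega
          rw [e3, hself]
  -- two exchanged vertices
  have claim2 : ∀ (w w' p q : V) (e : Sym2 V), e ∈ M \ M' → w ∈ e → w' ∈ e → w ≠ w' →
      s(p, q) ∈ Z → p ≠ q → G.Adj w p → G.Adj w' q → False := by
    intro w w' p q e he hw hw' hww hpq hne' ha hb
    have c1 := claim w p q e he hw hpq ha
    have hqp : s(q, p) ∈ Z := by rw [Sym2.eq_swap]; exact hpq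
    have c2 := claim w' q p e he hw' hqp hb
    have hpM := hZM _ hpq
    have hnw : ∀ z ∈ Z, w ∉ z := fun z hz => hwnot e he w hw z (hZM z hz).1 (hZM z hz).2
    have hnw' : ∀ z ∈ Z, w' ∉ z := fun z hz => hwnot e he w' hw' z (hZM z hz).1 (hZM z hz).2
    have hall2 : ∀ z ∈ Z.erase s(p, q), ∀ v ∈ s(w', q), v ∉ z := by
      intro z hz v hv
      have hzZ := mem_of_mem_erase hz
      rcases Sym2.mem_iff.1 hv with rfl | rfl
      · exact hnw' z hzZ
      · exact hM.2 _ hpM.1 z (hZM z hzZ).1 (Ne.symm (ne_of_mem_erase hz)) v (Sym2.mem_mk_right p v)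
    have hall1 : ∀ z ∈ insert s(w', q) (Z.erase s(p, q)), ∀ v ∈ s(w, p), v ∉ z := by
      intro z hz v hv
      rcases mem_insert.1 hz with rfl | hz
      · rw [Sym2.mem_iff]
        rintro (rfl | rfl)
        · rcases Sym2.mem_iff.1 hv with h | h
          · exact hww h.symm
          · exact hnw' _ hpq (by rw [h]; exact Sym2.mem_mk_left p q)
        · rcases Sym2.mem_iff.1 hv with h | h
          · exact hnw _ hpq (by rw [← h]; exact Sym2.mem_mk_right p v)
          · exact hne' h.symm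
      · have hzZ := mem_of_mem_erase hz
        rcases Sym2.mem_iff.1 hv with rfl | rfl
        · exact hnw z hzZ
        · exact hM.2 _ hpM.1 z (hZM z hzZ).1 (Ne.symm (ne_of_mem_erase hz)) v
            (Sym2.mem_mk_left v q)
    have n2 : s(w', q) ∉ Z.erase s(p, q) := fun h =>
      hall2 _ h w' (Sym2.mem_mk_left w' q) (Sym2.mem_mk_left w' q)
    have n1 : s(w, p) ∉ insert s(w', q) (Z.erase s(p, q)) := fun h =>
      hall1 _ h w (Sym2.mem_mk_left w p) (Sym2.mem_mk_left w p)
    have hIM : IsM G (insert s(w, p) (insert s(w', q) (Z.erase s(p, q)))) :=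
      ins (ins (mono hM (fun z hz => (hZM z (mem_of_mem_erase hz)).1)) hb hall2) ha hall1
    refine hNZ _ hIM ?_ ?_
    · rw [card_insert_of_notMem n1, card_insert_of_notMem n2, card_erase_of_mem hpq, h2]
      omega
    · rw [sum_insert n1, sum_insert n2, c1, c2,
        sum_eq_zero (fun z hz => hz0 z (mem_of_mem_erase hz))]
      ring
  -- counting
  let Ne : Sym2 V × Sym2 V → Finset (Sym2 V) := fun t =>
    univ.filter (fun s => s ∈ (Gᶜ).edgeSet ∧ ∃ x ∈ t.2, ∃ y ∈ t.1, s = s(x, y))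
  have hcard2 : ∀ t ∈ Z ×ˢ (M \ M'), 2 ≤ (Ne t).card := by
    rintro ⟨z, e⟩ ht
    obtain ⟨hz, he⟩ := mem_product.1 ht
    simp only at hz he
    induction z using Sym2.ind with
    | _ p q =>
    induction e using Sym2.ind with
    | _ w w' =>
    have hzM := hZM _ hz
    have hpq : p ≠ q := by
      have : G.Adj p q := hM.1 _ hzM.1
      exact this.ne
    have hww : w ≠ w' := by
      have : G.Adj w w' := hM.1 _ (mem_sdiff.1 he).1
      exact this.ne
    have hw := Sym2.mem_mk_left w w'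
    have hw' := Sym2.mem_mk_right w w'
    have hp := Sym2.mem_mk_left p q
    have hq := Sym2.mem_mk_right p q
    have nw : w ∉ s(p, q) := hwnot _ he w hw _ hzM.1 hzM.2
    have nw' : w' ∉ s(p, q) := hwnot _ he w' hw' _ hzM.1 hzM.2
    rw [Sym2.mem_iff, not_or] at nw nw'
    have hmem : ∀ x ∈ s(w, w'), ∀ y ∈ s(p, q), ¬ G.Adj x y → s(x, y) ∈ Ne (s(p, q), s(w, w')) := by
      intro x hx y hy hn
      refine mem_filter.2 ⟨mem_univ _, ?_, x, hx, y, hy, rfl⟩
      rw [SimpleGraph.mem_edgeSet, SimpleGraph.compl_adj]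
      refine ⟨?_, hn⟩
      rintro rfl
      exact hwnot _ he x hx _ hzM.1 hzM.2 hy
    have hqp : s(q, p) ∈ Z := by rw [Sym2.eq_swap]; exact hz
    have o1 : ¬ G.Adj w p ∨ ¬ G.Adj w' q := by
      by_contra h
      push Not at h
      exact claim2 w w' p q _ he hw hw' hww hz hpq h.1 h.2
    have o2 : ¬ G.Adj w q ∨ ¬ G.Adj w' p := by
      by_contra h
      push Not at h
      exact claim2 w w' q p _ he hw hw' hww hqp hpq.symm h.1 h.2
    have hone : 1 < (Ne (s(p, q), s(w, w'))).card := by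
      rw [one_lt_card]
      rcases o1 with o1 | o1 <;> rcases o2 with o2 | o2
      · refine ⟨_, hmem w hw p hp o1, _, hmem w hw q hq o2, ?_⟩
        intro h
        rcases Sym2.eq_iff.1 h with h | h
        · exact hpq h.2
        · exact nw.2 h.1
      · refine ⟨_, hmem w hw p hp o1, _, hmem w' hw' p hp o2, ?_⟩
        intro h
        rcases Sym2.eq_iff.1 h with h | h
        · exact hww h.1
        · exact nw.1 h.1
      · refine ⟨_, hmem w' hw' q hq o1, _, hmem w hw q hq o2, ?_⟩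
        intro h
        rcases Sym2.eq_iff.1 h with h | h
        · exact hww h.1.symm
        · exact nw'.2 h.1
      · refine ⟨_, hmem w' hw' q hq o1, _, hmem w' hw' p hp o2, ?_⟩
        intro h
        rcases Sym2.eq_iff.1 h with h | h
        · exact hpq h.2.symm
        · exact nw'.1 h.1
    exact hone
  have hpd : ∀ t ∈ Z ×ˢ (M \ M'), ∀ t' ∈ Z ×ˢ (M \ M'), t ≠ t' → Disjoint (Ne t) (Ne t') := by
    rintro ⟨z, e⟩ ht ⟨z', e'⟩ ht' hne'
    obtain ⟨hz, he⟩ := mem_product.1 ht
    obtain ⟨hz', he'⟩ := mem_product.1 ht'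
    simp only at hz he hz' he'
    rw [disjoint_left]
    intro s hs hs'
    obtain ⟨_, _, x, hx, y, hy, rfl⟩ := mem_filter.1 hs
    obtain ⟨_, _, x', hx', y', hy', hxy⟩ := mem_filter.1 hs'
    simp only at hx hy hx' hy'
    rcases Sym2.eq_iff.1 hxy with ⟨h, h'⟩ | ⟨h, h'⟩
    · subst h
      subst h'
      have ez : z = z' := by
        by_contra hcon
        exact hM.2 z (hZM z hz).1 z' (hZM z' hz').1 hcon y hy hy'
      have ee : e = e' := by
        by_contra hcon
        exact hM.2 e (mem_sdiff.1 he).1 e' (mem_sdiff.1 he').1 hcon x hx hx'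
      exact hne' (by rw [ez, ee])
    · subst h
      exact hwnot e he x hx z' (hZM z' hz').1 (hZM z' hz').2 hy'
  have hbig : 2 * (Z ×ˢ (M \ M')).card ≤ ((Z ×ˢ (M \ M')).biUnion Ne).card := by
    rw [card_biUnion hpd, mul_comm]
    exact card_nsmul_le_sum _ _ 2 hcard2
  have hsub : (((Z ×ˢ (M \ M')).biUnion Ne : Finset (Sym2 V)) : Set (Sym2 V)) ⊆ (Gᶜ).edgeSet := by
    intro s hs
    obtain ⟨t, _, hst⟩ := mem_biUnion.1 (mem_coe.1 hs)
    exact (mem_filter.1 hst).2.1
  have hfin : ((Gᶜ).edgeSet).Finite := Set.toFinite _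
  have hle := Set.ncard_le_ncard hsub hfin
  rw [Set.ncard_coe_finset] at hle
  rw [card_product, h2, hd] at hbig
  unfold mis at hmis
  omega

theorem t_SWb : S_SWb := by
  intro m hm hodd V _ _ G c hcard hmis hNZ M M' α d hd hM hM' hMc hM'c hs hs' hsw
  obtain ⟨k, rfl⟩ := hodd
  have hk : 1 ≤ k := by omega
  obtain ⟨dU, rfl⟩ := hd
  have hLL : LL (2 * k + 1) = 3 * k + 1 := by
    unfold LL
    omega
  obtain ⟨s1, s2, s3, s4⟩ := hsw
  have hdi : ∀ x : ZMod (2 * k + 1), ((dU⁻¹ : (ZMod (2 * k + 1))ˣ) : ZMod (2 * k + 1)) * (dU * x) = x := by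
    intro x
    rw [← mul_assoc, Units.inv_mul, one_mul]
  set c' : Sym2 V → ZMod (2 * k + 1) := fun e => ((dU⁻¹ : (ZMod (2 * k + 1))ˣ) : ZMod (2 * k + 1)) *
    (c e - α) with hc'
  have hzero : ∀ e, c' e = 0 ↔ c e = α := by
    intro e
    simp only [hc']
    rw [Units.mul_right_eq_zero, sub_eq_zero]
  have hval : ∀ (e : Sym2 V) (x : ZMod (2 * k + 1)), c e = α + x * dU → c' e = x := by
    intro e x hx
    simp only [hc']
    rw [hx, add_sub_cancel_left, mul_comm x, hdi]
  refine core k hk V G c' (by omega) ?_ M M' hM hM' (by omega) hs hs' ?_ ?_ ?_ ?_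
  · intro N hN hNc h0
    apply hNZ N hN hNc
    simp only [hc'] at h0
    rw [← Finset.mul_sum, Units.mul_right_eq_zero, Finset.sum_sub_distrib, Finset.sum_const, hNc,
      nsmul_eq_mul, ZMod.natCast_self, zero_mul, sub_zero] at h0
    exact h0
  · intro e he
    rcases s1 e he with h | h
    · exact Or.inl ((hzero e).2 h)
    · exact Or.inr (hval e 2 h)
  · have e1 : (M ∩ M').filter (fun e => c' e = 0) = (M ∩ M').filter (fun e => c e = α) := by
      apply Finset.filter_congr
      intro e _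
      exact hzero e
    unfold mu at s2
    rw [e1, s2]
    omega
  · intro e he
    exact hval e 1 (by rw [one_mul]; exact s3 e he)
  · intro e he
    obtain ⟨b, hb1, hb2, hb⟩ := s4 e he
    exact ⟨b, hb1, by omega, hval e _ hb⟩

end Pool.Agent.H116.ZM
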